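import Pool.Agent.W728.PK.Stms

/-!
# Jensen lower bound for circle averages
-/

set_option autoImplicit false

namespace Pool.Agent.W101.PK

open Complex Metric Set Filter Topology MeasureTheory

theorem t_JEN : Pool.Agent.W728.PK.JEN_stmt := by
  intro f hf _
  have han : AnalyticOnNhd ℂ f (ball (0 : ℂ) 1) := hf.analyticOnNhd isOpen_ball
  refine ⟨((meromorphicOrderAt f 0).untop₀ : ℝ) * Real.log 2 -
    Real.log ‖meromorphicTrailingCoeffAt f 0‖, fun r hr1 hr2 => ?_⟩
  have hr0 : 0 < r := by linarith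
  have habs : |r| = r := abs_of_pos hr0
  have han' : AnalyticOnNhd ℂ f (closedBall (0 : ℂ) |r|) := by
    apply han.mono
    rw [habs]
    exact closedBall_subset_ball hr2
  refine ⟨(han'.mono sphere_subset_closedBall).meromorphicOn.circleIntegrable_log_norm, ?_⟩
  have hJ := han'.meromorphicOn.circleAverage_log_norm hr0.ne'
  have hnn : ∀ u, (0 : ℝ) ≤ (MeromorphicOn.divisor f (closedBall (0 : ℂ) |r|) u : ℝ) := by
    intro u
    have h := MeromorphicOn.AnalyticOnNhd.divisor_nonneg han' u
    exact_mod_cast h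
  have h1 : 0 ≤ ∑ᶠ u, (MeromorphicOn.divisor f (closedBall (0 : ℂ) |r|) u : ℝ) *
      Real.log (r * ‖(0 : ℂ) - u‖⁻¹) := by
    apply finsum_nonneg
    intro u
    by_cases hu : u ∈ closedBall (0 : ℂ) |r|
    · apply mul_nonneg (hnn u)
      rw [zero_sub, norm_neg]
      rcases eq_or_ne u 0 with rfl | hu0
      · simp
      · apply Real.log_nonneg
        have h2 : 0 < ‖u‖ := norm_pos_iff.2 hu0
        rw [← div_eq_mul_inv, le_div_iff₀ h2, one_mul]
        rw [habs] at hu
        simpa using hu
    · rw [Function.locallyFinsuppWithin.apply_eq_zero_of_notMem _ hu]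
      simp
  have h0 : (0 : ℂ) ∈ closedBall (0 : ℂ) |r| := by simp
  have h2 : -(((meromorphicOrderAt f 0).untop₀ : ℝ) * Real.log 2) ≤
      (MeromorphicOn.divisor f (closedBall (0 : ℂ) |r|) 0 : ℝ) * Real.log r := by
    have h5 := hnn 0
    rw [MeromorphicOn.divisor_apply han'.meromorphicOn h0] at h5 ⊢
    have h3 : -Real.log 2 ≤ Real.log r := by
      rw [← Real.log_inv]
      apply Real.log_le_log (by norm_num)
      linarith
    nlinarith
  rw [hJ]
  linarith

end Pool.Agent.W101.PK
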